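import Mathlib
import Pool.Agent.Work.MP_8b5b22_gt.C.Final

/-!
# A nonmetrizable collectionwise normal space with a sigma-locally countable base under V = L
-/

open Topology

namespace Pool.Agent.Results.MP_8b5b22_gt.ConstructibleCounterexample

/-- Assume that every set of countable ordinals is constructible: every subset `x` of the
von Neumann ordinal `ω₁` lies in some level `L_α` (`CWL.Lev α`) of Goedel's constructible hierarchy
(in particular this holds under the axiom V = L).  Then there is a T1 space in which every discrete
family of closed sets has a pairwise disjoint open expansion, with a sigma-locally countable base,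
and which is not metrizable. -/
theorem result :
    (∀ x : ZFSet.{0}, x ⊆ (Ordinal.omega 1 : Ordinal.{0}).toZFSet →
      ∃ α : Ordinal.{0}, x ∈ CWL.Lev α) →
    ∃ (X : Type) (_ : TopologicalSpace X), T1Space X ∧
      (∀ (ι : Type) (F : ι → Set X), (∀ i, IsClosed (F i)) →
        (∀ x : X, ∃ U ∈ 𝓝 x, ∀ i j, (F i ∩ U).Nonempty → (F j ∩ U).Nonempty → i = j) →
        ∃ V : ι → Set X, (∀ i, IsOpen (V i)) ∧ (∀ i, F i ⊆ V i) ∧
          Pairwise (fun i j => Disjoint (V i) (V j))) ∧
      (∃ B : ℕ → Set (Set X), TopologicalSpace.IsTopologicalBasis (⋃ n, B n) ∧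
        ∀ n, ∀ x : X, ∃ U ∈ 𝓝 x, {b ∈ B n | (b ∩ U).Nonempty}.Countable) ∧
      ¬ TopologicalSpace.MetrizableSpace X :=
  CWV.main_constructible

end Pool.Agent.Results.MP_8b5b22_gt.ConstructibleCounterexample
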