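import Mathlib
import Pool.Agent.Work.MP_8b5b22_gt.Main

/-!
# Collectionwise normal spaces with a sigma-locally countable base: thin covers and a reduction
-/

namespace Pool.Agent.Results.MP_8b5b22_gt.ThinCoversAndKernel

open Pool.Agent.Work.MP_8b5b22_gt TopologicalSpace

universe u

/-- (1) A collectionwise normal space with a sigma-locally countable base is metrizable as soon as
it is covered by a closed metrizable subspace `K` and countably many arbitrary subsets `A n` such
that every nonempty `Y ⊆ A n` has a nonempty relatively open subset contained in a subspace which
is ccc or has countable extent.
(2) If every collectionwise normal space with a sigma-locally countable base in which no nonempty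
open set is contained in a subspace that is ccc or has countable extent is metrizable, then every
collectionwise normal space with a sigma-locally countable base is metrizable. -/
theorem result :
    (∀ (X : Type u) [TopologicalSpace X], CollectionwiseNormal X → SigmaLocallyCountableBase X →
      ∀ (K : Set X) (A : ℕ → Set X), IsClosed K → MetrizableSpace K →
        (∀ n, SomewhereThin (A n)) → Kᶜ ⊆ ⋃ n, A n → MetrizableSpace X) ∧
    ((∀ (X : Type u) [TopologicalSpace X], CollectionwiseNormal X → SigmaLocallyCountableBase X →
      MetrizableSpace X) ↔
    (∀ (X : Type u) [TopologicalSpace X], CollectionwiseNormal X → SigmaLocallyCountableBase X →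
      NowhereThin X → MetrizableSpace X)) :=
  ⟨fun _ _ h1 h2 _ _ hK hKm hA hcov => metrizable_of_cover h1 h2 hK hKm hA hcov, reduction⟩

end Pool.Agent.Results.MP_8b5b22_gt.ThinCoversAndKernel
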